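import Pool.Agent.Lib.helper21.RigidReals

set_option autoImplicit false

open Cardinal Set

namespace Pool.Agent.H.MP_e29ee7_lc

open Pool.Agent.Lib.helper21.RigidReals

variable (x : I → ℝ) (c : I → ℕ × ℕ)

def ok (t : ℤ) (s : ℕ → ℕ) (a : I) : Prop :=
  (t < 0 ∧ ((c a).1 : ℤ) < -t ∧ ((c a).2 : ℤ) < -t) ∨ (((c a).1 : ℤ) = t ∧ (c a).2 ≤ s (c a).1)

@[ext] structure Node (x : I → ℝ) (c : I → ℕ × ℕ) where
  t : ℤ
  s : ℕ → ℕ
  a : I
  hs : ∀ k : ℕ, t < k → s k = 0
  ha : ok c t s a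

def agree (t : ℤ) (s s' : ℕ → ℕ) : Prop := ∀ k : ℕ, (k : ℤ) ≤ t → s k = s' k

def lex (e e' : Node x c) : Prop := e.t < e'.t ∨ (e.t = e'.t ∧ x e.a ≤ x e'.a)

@[reducible] def po (hx : Function.Injective x) : PartialOrder (Node x c) where
  le e e' := agree e.t e.s e'.s ∧ lex x c e e'
  le_refl e := ⟨fun _ _ => rfl, Or.inr ⟨rfl, le_rfl⟩⟩
  le_trans e1 e2 e3 h1 h2 := by
    obtain ⟨a1, l1⟩ := h1
    obtain ⟨a2, l2⟩ := h2
    have : e1.t ≤ e2.t := by rcases l1 with h | h <;> omega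
    refine ⟨fun k hk => (a1 k hk).trans (a2 k (by omega)), ?_⟩
    rcases l1 with h | ⟨h, h'⟩ <;> rcases l2 with g | ⟨g, g'⟩
    · left; omega
    · left; omega
    · left; omega
    · right; exact ⟨h.trans g, h'.trans g'⟩
  le_antisymm e1 e2 h1 h2 := by
    obtain ⟨a1, l1⟩ := h1
    obtain ⟨a2, l2⟩ := h2
    rcases l1 with h | ⟨h, h'⟩ <;> rcases l2 with g | ⟨g, g'⟩
    · omega
    · omega
    · omega
    · refine Node.ext h ?_ (hx (le_antisymm h' g'))
      funext k
      by_cases hk : (k : ℤ) ≤ e1.t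
      · exact a1 k hk
      · rw [e1.hs k (by omega), e2.hs k (by omega)]

def B (y : ℕ → ℕ) : Set (Node x c) := {e | agree e.t e.s y}

theorem lex_total (e e' : Node x c) : lex x c e e' ∨ lex x c e' e := by
  unfold lex
  rcases lt_trichotomy e.t e'.t with h | h | h
  · exact Or.inl (Or.inl h)
  · rcases le_total (x e.a) (x e'.a) with g | g
    · exact Or.inl (Or.inr ⟨h, g⟩)
    · exact Or.inr (Or.inr ⟨h.symm, g⟩)
  · exact Or.inr (Or.inl h)

theorem le_iff_lex (hx : Function.Injective x) (y : ℕ → ℕ) (e e' : Node x c) (h : e ∈ B x c y)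
    (h' : e' ∈ B x c y) : (po x c hx).le e e' ↔ lex x c e e' := by
  refine ⟨fun h => h.2, fun l => ⟨fun k hk => ?_, l⟩⟩
  have : e.t ≤ e'.t := by rcases l with h | h <;> omega
  exact (h k hk).trans (h' k (by omega)).symm

theorem B_chain (hx : Function.Injective x) (y : ℕ → ℕ) : IsChain (po x c hx).le (B x c y) := by
  intro e h e' h' _
  rw [le_iff_lex x c hx y e e' h h', le_iff_lex x c hx y e' e h' h]
  exact lex_total x c e e'

theorem chain_sub (hx : Function.Injective x) (K : Set (Node x c))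
    (hK : IsChain (po x c hx).le K) : ∃ y, K ⊆ B x c y := by
  classical
  refine ⟨fun k => if h : ∃ e ∈ K, (k : ℤ) ≤ e.t then h.choose.s k else 0, ?_⟩
  intro e he k hk
  have h : ∃ e ∈ K, (k : ℤ) ≤ e.t := ⟨e, he, hk⟩
  simp only [dif_pos h]
  obtain ⟨h1, h2⟩ := h.choose_spec
  by_cases heq : e = h.choose
  · rw [← heq]
  · rcases hK he h1 heq with g | g
    · exact g.1 k hk
    · exact (g.1 k h2).symm

def trunc (t : ℤ) (y : ℕ → ℕ) : ℕ → ℕ := fun k => if (k : ℤ) ≤ t then y k else 0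

def mkN (k : ℕ) (y : ℕ → ℕ) (a : I) (h1 : (c a).1 = k) (h2 : (c a).2 ≤ y k) : Node x c where
  t := k
  s := trunc k y
  a := a
  hs := fun j hj => by simp only [trunc]; rw [if_neg (by omega)]
  ha := Or.inr ⟨by rw [h1], by simp only [trunc, h1]; rw [if_pos le_rfl]; exact h2⟩

theorem mkN_mem (k : ℕ) (y : ℕ → ℕ) (a : I) (h1 : (c a).1 = k) (h2 : (c a).2 ≤ y k) :
    mkN x c k y a h1 h2 ∈ B x c y := fun j hj => by
  simp only [mkN, trunc] at hj ⊢; rw [if_pos hj]

theorem B_max (hx : Function.Injective x) (hc : Function.Surjective c) (y : ℕ → ℕ) :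
    IsMaxChain (po x c hx).le (B x c y) := by
  refine ⟨B_chain x c hx y, fun K hK hsub => ?_⟩
  obtain ⟨z, hz⟩ := chain_sub x c hx K hK
  have : y = z := by
    funext k
    obtain ⟨a, ha⟩ := hc (k, 0)
    have m := mkN_mem x c k y a (by rw [ha]) (by rw [ha]; exact Nat.zero_le _)
    exact (m k le_rfl).symm.trans (hz (hsub m) k le_rfl)
  subst this
  exact hsub.antisymm hz

theorem max_eq (hx : Function.Injective x) (K : Set (Node x c))
    (hK : IsMaxChain (po x c hx).le K) : ∃ y, K = B x c y := by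
  obtain ⟨y, hy⟩ := chain_sub x c hx K hK.1
  exact ⟨y, hK.2 (B_chain x c hx y) hy⟩

def shift (y z : ℕ → ℕ) (K M : ℕ) (hK : ∀ k, K ≤ k → y k ≤ z k) (hM : ∀ k < K, y k < M)
    (hKM : K ≤ M) (e : Node x c) (he : e ∈ B x c y) : Node x c where
  t := if (K : ℤ) ≤ e.t then e.t else e.t - K - M
  s := trunc (if (K : ℤ) ≤ e.t then e.t else e.t - K - M) z
  a := e.a
  hs := fun j hj => by simp only [trunc]; rw [if_neg (by omega)]
  ha := by
    have h := e.ha
    split_ifs with hk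
    · rcases h with h | ⟨h1, h2⟩
      · omega
      · refine Or.inr ⟨h1, ?_⟩
        simp only [trunc]; rw [if_pos h1.le]
        rw [he _ h1.le] at h2
        exact h2.trans (hK _ (by omega))
    · left
      rcases h with h | ⟨h1, h2⟩
      · omega
      · rw [he _ h1.le] at h2
        have := hM (c e.a).1 (by omega)
        omega

theorem embed (hx : Function.Injective x) (y z : ℕ → ℕ) (K : ℕ) (hK : ∀ k, K ≤ k → y k ≤ z k) :
    letI := po x c hx
    Nonempty (↥(B x c y) ↪o ↥(B x c z)) := by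
  let _ := po x c hx
  obtain ⟨M, hM, hKM⟩ : ∃ M, (∀ k < K, y k < M) ∧ K ≤ M := by
    refine ⟨K + 1 + ∑ k ∈ Finset.range K, y k, fun k hk => ?_, by omega⟩
    have := Finset.single_le_sum (f := y) (fun i _ => Nat.zero_le _) (Finset.mem_range.2 hk)
    omega
  have hmem : ∀ e (he : e ∈ B x c y), shift x c y z K M hK hM hKM e he ∈ B x c z := by
    intro e he j hj
    simp only [shift, trunc] at hj ⊢; rw [if_pos hj]
  refine ⟨OrderEmbedding.ofMapLEIff (fun e => ⟨shift x c y z K M hK hM hKM e.1 e.2, hmem _ _⟩) ?_⟩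
  intro e e'
  show (po x c hx).le _ _ ↔ (po x c hx).le _ _
  rw [le_iff_lex x c hx z _ _ (hmem _ _) (hmem _ _), le_iff_lex x c hx y _ _ e.2 e'.2]
  simp only [lex, shift]
  split_ifs <;> constructor <;> rintro (h | ⟨h, h'⟩) <;>
    first | (left; omega) | (right; exact ⟨by omega, h'⟩)

theorem no_embed (hx : Function.Injective x) (hc : ∀ p, #(c ⁻¹' {p}) = 𝔠)
    (hr : ∀ (Y : Set I) (f : I → I), (∀ a ∈ Y, ∀ b ∈ Y, x a < x b → x (f a) < x (f b)) →
      (∀ a ∈ Y, f a ≠ a) → #Y < 𝔠)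
    (y z : ℕ → ℕ) (K : ℕ) (hK : ∀ k, K ≤ k → z k < y k) :
    letI := po x c hx
    ¬ Nonempty (↥(B x c y) ↪o ↥(B x c z)) := by
  classical
  let _ := po x c hx
  rintro ⟨φ⟩
  have hne : ∀ p, (c ⁻¹' {p}).Nonempty := fun p => by
    rw [← nonempty_coe_sort, ← mk_ne_zero_iff, hc]; exact continuum_ne_zero
  obtain ⟨a0, ha0⟩ := hne (0, 0)
  have ha0' : c a0 = (0, 0) := ha0
  let p0 : B x c y := ⟨mkN x c 0 y a0 (by rw [ha0']) (by rw [ha0']; exact Nat.zero_le _),
    mkN_mem x c _ _ _ _ _⟩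
  let k : ℕ := K + 1 + (φ p0).1.t.natAbs
  let X : Set I := c ⁻¹' {(k, y k)}
  have hX : ∀ a ∈ X, c a = (k, y k) := fun a ha => ha
  let nd : X → B x c y := fun a => ⟨mkN x c k y a.1 (by rw [hX a.1 a.2]) (by rw [hX a.1 a.2]),
    mkN_mem x c _ _ _ _ _⟩
  have hlow : ∀ a, (φ p0).1.t ≤ (φ (nd a)).1.t := by
    intro a
    have : p0 ≤ nd a := by
      show (po x c hx).le _ _
      rw [le_iff_lex x c hx y _ _ p0.2 (nd a).2]
      left; show ((0 : ℕ) : ℤ) < (k : ℕ); omega
    have h2 : (po x c hx).le (φ p0).1 (φ (nd a)).1 := φ.monotone this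
    rcases h2.2 with h | h <;> omega
  have hcol : ∀ a, (φ (nd a)).1.a ≠ a.1 := by
    intro a h
    have h1 := (φ (nd a)).1.ha
    have h2 := hlow a
    rw [h, ok, hX a.1 a.2] at h1
    rcases h1 with h1 | ⟨h1, h3⟩
    · simp only at h1; omega
    · simp only at h1 h3
      rw [(φ (nd a)).2 k h1.le] at h3
      have := hK k (by omega)
      omega
  obtain ⟨t, ht⟩ := infinite_pigeonhole (fun a : X => (φ (nd a)).1.t)
    (by rw [hc]; exact aleph0_le_continuum)
    (by rw [hc]; simpa using aleph0_lt_cof_continuum)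
  let f : I → I := fun a => if h : a ∈ X then (φ (nd ⟨a, h⟩)).1.a else a
  have key := hr (Subtype.val '' ((fun a : X => (φ (nd a)).1.t) ⁻¹' {t})) f ?_ ?_
  · rw [mk_image_eq Subtype.val_injective, ht, hc] at key
    exact lt_irrefl _ key
  · rintro _ ⟨a, ha, rfl⟩ _ ⟨b, hb, rfl⟩ hab
    simp only [f, dif_pos a.2, dif_pos b.2]
    have h1 : ¬ nd b ≤ nd a := by
      show ¬ (po x c hx).le _ _
      rw [le_iff_lex x c hx y _ _ (nd b).2 (nd a).2]
      rintro (h | ⟨-, h⟩)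
      · exact lt_irrefl _ h
      · exact absurd h (not_le.2 hab)
    have h2 : ¬ (po x c hx).le (φ (nd b)).1 (φ (nd a)).1 := fun h => h1 (φ.le_iff_le.1 h)
    rw [le_iff_lex x c hx z _ _ (φ (nd b)).2 (φ (nd a)).2] at h2
    by_contra h3
    have ha' : (φ (nd a)).1.t = t := ha
    have hb' : (φ (nd b)).1.t = t := hb
    exact h2 (Or.inr ⟨hb'.trans ha'.symm, not_lt.1 h3⟩)
  · rintro _ ⟨a, -, rfl⟩
    simp only [f, dif_pos a.2]
    exact hcol a

theorem tree (hx : Function.Injective x) (e : Node x c) :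
    letI := po x c hx
    IsChain (· ≤ ·) {e' : Node x c | e' < e} := by
  let _ := po x c hx
  refine (B_chain x c hx e.s).mono ?_
  intro e' he'
  have h : (po x c hx).le e' e := le_of_lt (show e' < e from he')
  exact h.1

theorem cover (hx : Function.Injective x) :
    ∃ f : ℕ → Set (Node x c), (∀ n, IsChain (po x c hx).le (f n)) ∧ (⋃ n, f n) = Set.univ := by
  obtain ⟨g, hg⟩ := exists_surjective_nat (ℕ →₀ ℕ)
  refine ⟨fun n => B x c (g n), fun n => B_chain x c hx _, ?_⟩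
  rw [eq_univ_iff_forall]
  intro e
  have hfin : (Function.support e.s).Finite := by
    refine (finite_Iic e.t.toNat).subset fun k hk => ?_
    by_contra h
    simp only [mem_Iic] at h
    exact hk (e.hs k (by omega))
  obtain ⟨n, hn⟩ := hg (Finsupp.ofSupportFinite e.s hfin)
  refine mem_iUnion.2 ⟨n, fun k _ => ?_⟩
  rw [hn]; rfl

end Pool.Agent.H.MP_e29ee7_lc
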